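import Pool.Agent.U724.PH.KimC
import Pool.Agent.U724.NT.Growth

/-!
# Algebraic endomorphisms and their projectors
-/

set_option autoImplicit false
set_option linter.unusedSectionVars false

open CategoryTheory Limits MonoidalCategory Module Polynomial
open Pool.Agent.Y112.SR Pool.Agent.Y112.KD Pool.Agent.N64.AF Pool.Agent.U724.NT
open Pool.Agent.U724.PH

namespace Pool.Agent.U724.FF

universe v u w t x

section Poly

variable {F A : Type*} [Field F] [Ring A] [Algebra F A]

/-- The projector to the generalised eigenspace. -/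
lemma exists_proj (φ : A) {g : F[X]} (hg : g ≠ 0) (hφ : aeval φ g = 0) (r : F) :
    ∃ (e : F[X]) (m : ℕ), aeval φ e * aeval φ e = aeval φ e ∧ e.eval r = 1 ∧
      (φ - algebraMap F A r) ^ m * aeval φ e = 0 := by
  obtain ⟨h, hgh, hnd⟩ := exists_eq_pow_rootMultiplicity_mul_and_not_dvd g hg r
  set m := g.rootMultiplicity r
  have hirr : Irreducible (X - C r : F[X]) := irreducible_X_sub_C r
  have hc : IsCoprime ((X - C r : F[X]) ^ (m + 1)) h :=
    ((hirr.coprime_iff_not_dvd).2 hnd).pow_left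
  obtain ⟨a, b, hab⟩ := hc
  refine ⟨b * h, m, ?_, ?_, ?_⟩
  · rw [← map_mul]
    have h1 : b * h * (b * h) = b * h - (a * b * (X - C r)) * g := by
      rw [hgh]
      linear_combination (b * h) * hab
    rw [h1, map_sub, map_mul (aeval φ) (a * b * (X - C r)), hφ, mul_zero, sub_zero]
  · have h1 := congrArg (eval r) hab
    rw [eval_add, eval_mul, eval_pow, eval_sub, eval_X, eval_C, sub_self,
      zero_pow (Nat.succ_ne_zero m), mul_zero, zero_add, eval_one] at h1
    exact h1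
  · have h1 : (φ - algebraMap F A r) ^ m = aeval φ ((X - C r) ^ m) := by
      rw [map_pow, map_sub, aeval_X, aeval_C]
    rw [h1, ← map_mul]
    have h2 : (X - C r) ^ m * (b * h) = b * g := by
      rw [hgh]
      ring
    rw [h2, map_mul, hφ, mul_zero]

end Poly

variable {C : Type u} [Category.{v} C] [Preadditive C] [MonoidalCategory C]
  [MonoidalPreadditive C] [SymmetricCategory C] [RightRigidCategory C]
  {Λ : Type t} [Field Λ] [CharZero Λ] [Linear Λ C] [MonoidalLinear Λ C]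
  {K : Type w} [Field K] [IsAlgClosed K] [Algebra Λ K] {R : SuperRealisation C K}

/-- Endomorphisms are algebraic if the homologically trivial ones are nilpotent. -/
theorem exists_poly (hR : IsReal Λ R) {Y : C} (hY : R.CPlus Y)
    (hnil : ∀ y : End Y, R.H.map (y : Y ⟶ Y) = 0 → IsNilpotent y) (φ : End Y) :
    ∃ g : Λ[X], g ≠ 0 ∧ aeval φ g = 0 := by
  have hfin : Module.Finite Λ ((Y ⟶ Y) ⧸ numIdeal Λ Y Y) := finite_num hR Y Y
  let L : Λ[X] →ₗ[Λ] ((Y ⟶ Y) ⧸ numIdeal Λ Y Y) :=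
    (numIdeal Λ Y Y).mkQ ∘ₗ (aeval φ : Λ[X] →ₐ[Λ] End Y).toLinearMap
  have h1 : ¬ Function.Injective L := fun h =>
    Polynomial.not_finite (R := Λ) (Module.Finite.of_injective L h)
  rw [← LinearMap.ker_eq_bot, Submodule.eq_bot_iff] at h1
  push Not at h1
  obtain ⟨p, hp, hp0⟩ := h1
  have h2 : NumTriv ((aeval φ p : End Y) : Y ⟶ Y) := by
    have h3 : (numIdeal Λ Y Y).mkQ ((aeval φ p : End Y) : Y ⟶ Y) = 0 := hp
    rwa [Submodule.mkQ_apply, Submodule.Quotient.mk_eq_zero, mem_numIdeal] at h3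
  obtain ⟨k, hk⟩ := exists_pow_hom hR hY h2
  obtain ⟨N, hN⟩ := hnil _ hk
  refine ⟨p ^ (k * N), pow_ne_zero _ hp0, ?_⟩
  rw [map_pow, pow_mul]
  exact hN

/-- The action of a polynomial in `φ` on an eigenvector. -/
lemma comp_aeval {Y Z : C} {φ : End Y} {β : Z ⟶ Y} {r : Λ} (hβ : β ≫ (φ : Y ⟶ Y) = r • β)
    (p : Λ[X]) : β ≫ ((aeval φ p : End Y) : Y ⟶ Y) = p.eval r • β := by
  have hpow : ∀ k : ℕ, β ≫ ((φ ^ k : End Y) : Y ⟶ Y) = r ^ k • β := by
    intro k
    induction k with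
    | zero =>
      rw [pow_zero, pow_zero, one_smul]
      exact Category.comp_id β
    | succ k ih =>
      rw [pow_succ, End.mul_def, ← Category.assoc, hβ, Linear.smul_comp, ih, smul_smul, pow_succ']
  induction p using Polynomial.induction_on' with
  | add p q hp hq =>
    rw [map_add, eval_add, add_smul, ← hp, ← hq]
    exact Preadditive.comp_add _ _ _ _ _ _
  | monomial k c =>
    rw [aeval_monomial, eval_monomial, Algebra.algebraMap_eq_smul_one, smul_mul_assoc, one_mul,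
      mul_smul, ← hpow k]
    exact Linear.comp_smul _ _ _ _ _ _

/-- All linear forms on the cycles modulo numerical equivalence are given by morphisms. -/
theorem exists_form (hR : IsReal Λ R) (A : C)
    (f : ((𝟙_ C ⟶ A) ⧸ numIdeal Λ (𝟙_ C) A) →ₗ[Λ] Λ) : ∃ z : A ⟶ 𝟙_ C,
      ∀ β : 𝟙_ C ⟶ A, β ≫ z = f (Submodule.Quotient.mk β) • 𝟙 (𝟙_ C) := by
  obtain ⟨x, z, hxz⟩ := exists_dual (Λ := Λ) hR A
  have hfin := finite_num hR (Λ := Λ) (𝟙_ C) A
  -- the classes of the `x i` form a basis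
  have hid : 𝟙 (𝟙_ C) ≠ 0 := E1aux.id_ne_zero R
  have hli : LinearIndependent Λ (fun i => (Submodule.Quotient.mk (x i) :
      (𝟙_ C ⟶ A) ⧸ numIdeal Λ (𝟙_ C) A)) := by
    rw [Fintype.linearIndependent_iff]
    intro c hc j
    have h1 : (Submodule.Quotient.mk (∑ i, c i • x i) :
        (𝟙_ C ⟶ A) ⧸ numIdeal Λ (𝟙_ C) A) = 0 := by
      rw [← hc, ← Submodule.mkQ_apply, map_sum]
      rfl
    rw [Submodule.Quotient.mk_eq_zero, mem_numIdeal, numTriv_unit_iff hR] at h1
    have h2 := h1 (z j)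
    rw [Preadditive.sum_comp] at h2
    simp only [Linear.smul_comp, hxz, smul_ite, smul_zero, Finset.sum_ite_eq', Finset.mem_univ,
      if_true] at h2
    exact (smul_eq_zero.1 h2).resolve_right hid
  let e := basisOfLinearIndependentOfCardEqFinrank' (fun i => (Submodule.Quotient.mk (x i) :
      (𝟙_ C ⟶ A) ⧸ numIdeal Λ (𝟙_ C) A)) hli (by rw [Fintype.card_fin]; rfl)
  have he : ∀ i, e i = Submodule.Quotient.mk (x i) := fun i => by
    simp only [e, coe_basisOfLinearIndependentOfCardEqFinrank']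
  have hsum : ∀ c : Fin (numRank Λ A) → Λ, (Submodule.Quotient.mk (∑ i, c i • x i) :
      (𝟙_ C ⟶ A) ⧸ numIdeal Λ (𝟙_ C) A) = ∑ i, c i • e i := by
    intro c
    rw [← Submodule.mkQ_apply, map_sum]
    refine Finset.sum_congr rfl fun i _ => ?_
    rw [map_smul, he]
    rfl
  refine ⟨∑ k, f (e k) • z k, fun β => ?_⟩
  -- the class of `β`
  have h1 : ∃ c : Fin (numRank Λ A) → Λ, NumTriv (β - ∑ i, c i • x i) := by
    refine ⟨fun i => e.repr (Submodule.Quotient.mk β) i, ?_⟩
    rw [← mem_numIdeal (Λ := Λ), ← Submodule.Quotient.mk_eq_zero, Submodule.Quotient.mk_sub,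
      sub_eq_zero, hsum]
    exact (e.sum_repr (Submodule.Quotient.mk β)).symm
  obtain ⟨c, hc⟩ := h1
  have h2 : ∀ k, β ≫ z k = c k • 𝟙 (𝟙_ C) := by
    intro k
    have h3 := (numTriv_unit_iff hR _).1 hc (z k)
    rw [Preadditive.sub_comp, sub_eq_zero, Preadditive.sum_comp] at h3
    rw [h3]
    simp only [Linear.smul_comp, hxz, smul_ite, smul_zero, Finset.sum_ite_eq', Finset.mem_univ,
      if_true]
  have h4 : (Submodule.Quotient.mk β : (𝟙_ C ⟶ A) ⧸ numIdeal Λ (𝟙_ C) A) =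
      ∑ i, c i • e i := by
    have h5 : (Submodule.Quotient.mk (β - ∑ i, c i • x i) :
        (𝟙_ C ⟶ A) ⧸ numIdeal Λ (𝟙_ C) A) = 0 := by
      rw [Submodule.Quotient.mk_eq_zero, mem_numIdeal]
      exact hc
    rw [Submodule.Quotient.mk_sub, sub_eq_zero] at h5
    rw [h5, hsum]
  rw [h4, map_sum, Preadditive.comp_sum, Finset.sum_smul]
  refine Finset.sum_congr rfl fun k _ => ?_
  rw [Linear.comp_smul, h2, map_smul, smul_smul, smul_eq_mul, mul_comm]

end Pool.Agent.U724.FF
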