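import Pool.Agent.N64.AF.M6

/-!
# Eigenspaces of the Frobenius on cycles and the strong Tate conjecture: definitions
-/

set_option autoImplicit false

open CategoryTheory MonoidalCategory Module
open Pool.Agent.Y112.SR Pool.Agent.N64.AF

namespace Pool.Agent.U724.FF

universe v u w t

variable {C : Type u} [Category.{v} C] [Preadditive C] [MonoidalCategory C]
  [MonoidalPreadditive C] [SymmetricCategory C] [RightRigidCategory C]
  {Λ : Type t} [Field Λ] [Linear Λ C] [MonoidalLinear Λ C]
  {K : Type w} [Field K] [Algebra Λ K]

/-- The cycles on `U` on which the endomorphism `φ` acts as the scalar `r`. -/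
def eigen {U : C} (φ : U ⟶ U) (r : Λ) : Submodule Λ (𝟙_ C ⟶ U) where
  carrier := {β | β ≫ φ = r • β}
  zero_mem' := by
    change (0 : 𝟙_ C ⟶ U) ≫ φ = r • 0
    rw [Limits.zero_comp, smul_zero]
  add_mem' := fun {a b} ha hb => by
    change (a + b) ≫ φ = r • (a + b)
    rw [Preadditive.add_comp, show a ≫ φ = r • a from ha, show b ≫ φ = r • b from hb, smul_add]
  smul_mem' := fun c a ha => by
    change (c • a) ≫ φ = r • c • a
    rw [Linear.smul_comp, show a ≫ φ = r • a from ha, smul_comm]

/-- The strong form of the conjecture of Tate for the eigenvalue `r` of the Frobenius `φ` of `U`: the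
multiplicity of `r` as an eigenvalue of the realisation of `φ` (for a variety over a finite field and
`r = q ^ i`: the order of the pole of the zeta function at `i`) is at most (so it is equal to) the rank
of the group of the cycles in the `r`-eigenspace modulo numerical equivalence. -/
def StrongTate (R : SuperRealisation C K) {U : C} (φ : U ⟶ U) (r : Λ) : Prop :=
  finrank K (Module.End.maxGenEigenspace (R.H.map φ).hom (algebraMap Λ K r)) ≤
    finrank Λ ((eigen φ r).map (numIdeal Λ (𝟙_ C) U).mkQ)

end Pool.Agent.U724.FF
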