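import Pool.Agent.U724.FF.Alg
import Pool.Agent.U724.FF.Defs

/-!
# Cycles over finite fields: nilpotence and the strong Tate conjecture
-/

set_option autoImplicit false
set_option linter.unusedSectionVars false

open CategoryTheory Limits MonoidalCategory Module
open Pool.Agent.Y112.SR Pool.Agent.Y112.KD Pool.Agent.N64.AF Pool.Agent.U724.NT
open Pool.Agent.U724.PH Pool.Agent.N8.AFBb

namespace Pool.Agent.U724.FF

universe v u w t x

variable {C : Type u} [Category.{v} C] [Preadditive C] [MonoidalCategory C]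
  [MonoidalPreadditive C] [SymmetricCategory C] [RightRigidCategory C]
  {Λ : Type t} [Field Λ] [CharZero Λ] [Linear Λ C] [MonoidalLinear Λ C]
  {K : Type w} [Field K] [IsAlgClosed K] [Algebra Λ K] {R : SuperRealisation C K}

lemma exists_gen (R : SuperRealisation C K) : ∃ v : R.H.obj (𝟙_ C), v ≠ 0 := by
  have h1 : finrank K (R.H.obj (𝟙_ C)) = 1 := bt_unit R
  have h2 : 0 < finrank K (R.H.obj (𝟙_ C)) := by omega
  exact Module.finrank_pos_iff_exists_ne_zero.1 h2

lemma map_ap {X Y Z : C} (f : X ⟶ Y) (g : Y ⟶ Z) (v : R.H.obj X) :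
    (R.H.map (f ≫ g)).hom v = (R.H.map g).hom ((R.H.map f).hom v) := by
  rw [R.H.map_comp]
  rfl

lemma map_smul_ap (hR : IsReal Λ R) {X Y : C} (r : Λ) (f : X ⟶ Y) (v : R.H.obj X) :
    (R.H.map (r • f)).hom v = algebraMap Λ K r • (R.H.map f).hom v := by
  rw [hR.lin]
  rfl

/-- **Numerically trivial cycles in the eigenspaces vanish.** -/
theorem eigen_zero (hR : IsReal Λ R) {U : C} (hU : R.CPlus U)
    (hnil : ∀ y : End U, R.H.map (y : U ⟶ U) = 0 → IsNilpotent y) (φ : End U) {r : Λ}
    (hT : StrongTate R (φ : U ⟶ U) r) {α : 𝟙_ C ⟶ U} (hα : α ∈ eigen (φ : U ⟶ U) r)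
    (hα0 : NumTriv α) : α = 0 := by
  obtain ⟨g, hg, hφ⟩ := exists_poly (Λ := Λ) hR hU hnil φ
  obtain ⟨e, m, he1, he2, he3⟩ := exists_proj φ hg hφ r
  set ε' : End U := Polynomial.aeval φ e with hε'
  obtain ⟨ε, hε⟩ : ∃ ε : U ⟶ U, ε = (ε' : U ⟶ U) := ⟨_, rfl⟩
  -- the basis
  have hfin := finite_num hR (Λ := Λ) (𝟙_ C) U
  set W := (eigen (φ : U ⟶ U) r).map (numIdeal Λ (𝟙_ C) U).mkQ with hW
  set n := finrank Λ W with hn
  let w : Basis (Fin n) Λ W := Module.finBasis Λ W
  have hex : ∀ j, ∃ β ∈ eigen (φ : U ⟶ U) r, (numIdeal Λ (𝟙_ C) U).mkQ β = (w j : _) :=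
    fun j => (w j).2
  choose β hβ1 hβ2 using hex
  have hexf : ∀ j, ∃ f : ((𝟙_ C ⟶ U) ⧸ numIdeal Λ (𝟙_ C) U) →ₗ[Λ] Λ,
      f ∘ₗ W.subtype = w.coord j := fun j => LinearMap.exists_extend (w.coord j)
  choose f hf using hexf
  choose γ₀ hγ₀ using fun j => exists_form hR U (f j)
  have hd0 : ∀ i j, β i ≫ γ₀ j = if i = j then 𝟙 (𝟙_ C) else 0 := by
    intro i j
    rw [hγ₀]
    have h1 : f j (Submodule.Quotient.mk (β i)) = (f j ∘ₗ W.subtype) (w i) := by
      rw [LinearMap.comp_apply, Submodule.subtype_apply, ← hβ2]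
      rfl
    rw [h1, hf, Basis.coord_apply, Basis.repr_self, Finsupp.single_apply]
    split_ifs with hij
    · rw [one_smul]
    · rw [zero_smul]
  have heig : ∀ {b : 𝟙_ C ⟶ U}, b ∈ eigen (φ : U ⟶ U) r → b ≫ ε = b := by
    intro b hb
    rw [hε, hε', comp_aeval hb, he2, one_smul]
  have hβε : ∀ j, β j ≫ ε = β j := fun j => heig (hβ1 j)
  have hεε : ε ≫ ε = ε := by
    rw [hε]
    exact he1
  let γ : Fin n → (U ⟶ 𝟙_ C) := fun j => ε ≫ γ₀ j
  have hd : ∀ i j, β i ≫ γ j = if i = j then 𝟙 (𝟙_ C) else 0 := by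
    intro i j
    change β i ≫ ε ≫ γ₀ j = _
    rw [← Category.assoc, hβε, hd0]
  set p : U ⟶ U := ∑ j, γ j ≫ β j with hp
  have hβp : ∀ i, β i ≫ p = β i := by
    intro i
    rw [hp, Preadditive.comp_sum]
    have h1 : ∀ j, β i ≫ γ j ≫ β j = if i = j then β j else 0 := by
      intro j
      rw [← Category.assoc, hd]
      split_ifs with hij
      · rw [Category.id_comp]
      · rw [zero_comp]
    rw [Finset.sum_congr rfl fun j _ => h1 j, Finset.sum_ite_eq, if_pos (Finset.mem_univ i)]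
  have hεp : ε ≫ p = p := by
    rw [hp, Preadditive.comp_sum]
    refine Finset.sum_congr rfl fun j _ => ?_
    change ε ≫ (ε ≫ γ₀ j) ≫ β j = (ε ≫ γ₀ j) ≫ β j
    rw [← Category.assoc, ← Category.assoc, hεε]
  have hpε : p ≫ ε = p := by
    rw [hp, Preadditive.sum_comp]
    refine Finset.sum_congr rfl fun j _ => ?_
    rw [Category.assoc, hβε]
  have hpp : p ≫ p = p := by
    conv_lhs =>
      lhs
      rw [hp]
    rw [Preadditive.sum_comp]
    rw [hp]
    refine Finset.sum_congr rfl fun j _ => ?_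
    rw [← hp, Category.assoc, hβp]
  -- the realisations
  obtain ⟨v₀, hv₀⟩ := exists_gen R
  let b : Fin n → R.H.obj U := fun j => (R.H.map (β j)).hom v₀
  have hgb : ∀ i j, (R.H.map (γ i)).hom (b j) = if j = i then v₀ else 0 := by
    intro i j
    change (R.H.map (γ i)).hom ((R.H.map (β j)).hom v₀) = _
    rw [← map_ap, hd]
    split_ifs with hij
    · rw [R.H.map_id]
      rfl
    · rw [R.H.map_zero]
      rfl
  set Φ : Module.End K (R.H.obj U) := (R.H.map (φ : U ⟶ U)).hom with hΦ
  set μ : K := algebraMap Λ K r with hμ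
  have hbG : ∀ j, b j ∈ Module.End.maxGenEigenspace Φ μ := by
    intro j
    rw [Module.End.mem_maxGenEigenspace]
    refine ⟨1, ?_⟩
    rw [pow_one, LinearMap.sub_apply, LinearMap.smul_apply, Module.End.one_apply, sub_eq_zero]
    change (R.H.map (φ : U ⟶ U)).hom ((R.H.map (β j)).hom v₀) = μ • (R.H.map (β j)).hom v₀
    rw [← map_ap, show β j ≫ (φ : U ⟶ U) = r • β j from hβ1 j, map_smul_ap hR]
  have hfinU := R.finite U
  have hli : LinearIndependent K (fun j => (⟨b j, hbG j⟩ : Module.End.maxGenEigenspace Φ μ)) := by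
    rw [Fintype.linearIndependent_iff]
    intro c hc i
    have h1 := congrArg (fun z : Module.End.maxGenEigenspace Φ μ =>
      (R.H.map (γ i)).hom (z : R.H.obj U)) hc
    simp only [Submodule.coe_sum, Submodule.coe_smul, map_sum, map_smul, hgb,
      Submodule.coe_zero, map_zero, smul_ite, smul_zero, Finset.sum_ite_eq', Finset.mem_univ,
      if_true] at h1
    exact (smul_eq_zero.1 h1).resolve_right hv₀
  have hcard : Fintype.card (Fin n) = finrank K (Module.End.maxGenEigenspace Φ μ) := by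
    apply le_antisymm hli.fintype_card_le_finrank
    rw [Fintype.card_fin]
    exact hT
  have hspan : ∀ z ∈ Module.End.maxGenEigenspace Φ μ, ∃ c : Fin n → K, ∑ j, c j • b j = z := by
    intro z hz
    have h1 := hli.span_eq_top_of_card_eq_finrank' hcard
    have h2 : (⟨z, hz⟩ : Module.End.maxGenEigenspace Φ μ) ∈ Submodule.span K
        (Set.range fun j => (⟨b j, hbG j⟩ : Module.End.maxGenEigenspace Φ μ)) := by
      rw [h1]
      exact Submodule.mem_top
    rw [Submodule.mem_span_range_iff_exists_fun] at h2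
    obtain ⟨c, hc⟩ := h2
    refine ⟨c, ?_⟩
    have h3 := congrArg Subtype.val hc
    simpa only [Submodule.coe_sum, Submodule.coe_smul] using h3
  have hεG : ∀ v, (R.H.map ε).hom v ∈ Module.End.maxGenEigenspace Φ μ := by
    intro v
    rw [Module.End.mem_maxGenEigenspace]
    refine ⟨m, ?_⟩
    have h1 : Φ - μ • (1 : Module.End K (R.H.obj U)) =
        ((R.H.map ((φ - algebraMap Λ (End U) r : End U) : U ⟶ U)).hom :
          Module.End K (R.H.obj U)) := by
      have h2 : ((φ - algebraMap Λ (End U) r : End U) : U ⟶ U) =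
          (show U ⟶ U from φ) - r • 𝟙 U := by
        rw [Algebra.algebraMap_eq_smul_one]
        rfl
      rw [h2, R.H.map_sub, hR.lin, R.H.map_id]
      rfl
    have h4 : ((R.H.map ((φ - algebraMap Λ (End U) r : End U) : U ⟶ U)).hom :
          Module.End K (R.H.obj U)) = rho R U (φ - algebraMap Λ (End U) r) := rfl
    rw [h1, h4, ← map_pow]
    change (R.H.map (((φ - algebraMap Λ (End U) r) ^ m : End U) : U ⟶ U)).hom
      ((R.H.map ε).hom v) = 0
    rw [← map_ap]
    have h3 : ε ≫ (((φ - algebraMap Λ (End U) r) ^ m : End U) : U ⟶ U) = 0 := by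
      rw [hε]
      exact he3
    rw [h3, R.H.map_zero]
    rfl
  have hreal : R.H.map (ε - p) = 0 := by
    have h1 : R.H.map p = R.H.map ε := by
      ext v
      obtain ⟨c, hc⟩ := hspan _ (hεG v)
      have h2 : (R.H.map p).hom v = (R.H.map p).hom ((R.H.map ε).hom v) := by
        rw [← map_ap, hεp]
      have h3 : ∀ j, (R.H.map p).hom (b j) = b j := by
        intro j
        change (R.H.map p).hom ((R.H.map (β j)).hom v₀) = (R.H.map (β j)).hom v₀
        rw [← map_ap, hβp]
      change (R.H.map p).hom v = (R.H.map ε).hom v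
      rw [h2, ← hc, map_sum]
      refine Finset.sum_congr rfl fun j _ => ?_
      rw [map_smul, h3]
    rw [R.H.map_sub, h1, sub_self]
  -- nilpotence
  have hz : ε - p = 0 := by
    obtain ⟨k, hk⟩ := hnil (show End U from ε - p) hreal
    have h1 : IsIdempotentElem (show End U from ε - p) := by
      change (ε - p) ≫ (ε - p) = ε - p
      rw [Preadditive.sub_comp, Preadditive.comp_sub, Preadditive.comp_sub, hεε, hεp, hpε, hpp,
        sub_self, sub_zero]
    have h2 := h1.pow_succ_eq k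
    rw [pow_succ] at h2
    have h3 : (show End U from ε - p) ^ k = 0 := hk
    rw [h3, zero_mul] at h2
    exact h2.symm
  have hεp' : ε = p := sub_eq_zero.1 hz
  have h1 := heig hα
  rw [hεp', hp, Preadditive.comp_sum] at h1
  rw [← h1]
  refine Finset.sum_eq_zero fun j _ => ?_
  rw [← Category.assoc, (numTriv_unit_iff hR α).1 hα0, zero_comp]

end Pool.Agent.U724.FF
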